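import Mathlib
import Pool.Agent.H182R3.MO.Stmts

set_option autoImplicit false

open MeasureTheory Set Filter Topology
open scoped ContDiff Real

namespace Pool.Agent.H138R3.MO

open Pool.Agent.H182R3.MO

theorem taskP : TaskP := by
  intro Φ r0 hΦ h0 r hr
  set R : ℝ := Real.sqrt (r - r0) with hR
  have hR0 : 0 ≤ R := Real.sqrt_nonneg _
  have hR2 : R ^ 2 = r - r0 := Real.sq_sqrt (by linarith)
  -- the plane integral
  set F : ℝ × ℝ → ℝ := fun p => Φ (r - p.2 ^ 2) (r - p.2 ^ 2 - p.1 ^ 2) with hF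
  have hFc : Continuous F := by
    have h : Continuous (fun p : ℝ × ℝ => ((r - p.2 ^ 2, r - p.2 ^ 2 - p.1 ^ 2) : ℝ × ℝ)) := by
      fun_prop
    exact hΦ.comp h
  have hF0 : ∀ p : ℝ × ℝ, r - r0 ≤ p.1 ^ 2 + p.2 ^ 2 → F p = 0 := by
    intro p hp
    exact h0 _ _ (by linarith)
  have hFs : HasCompactSupport F := by
    apply HasCompactSupport.intro (K := Icc (-(R + 1)) (R + 1) ×ˢ Icc (-(R + 1)) (R + 1))
    · exact isCompact_Icc.prod isCompact_Icc
    · intro p hp
      apply hF0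
      rw [← hR2]
      by_contra hlt
      push Not at hlt
      apply hp
      rw [mem_prod, mem_Icc, mem_Icc]
      refine ⟨⟨?_, ?_⟩, ?_, ?_⟩ <;> nlinarith [sq_nonneg p.1, sq_nonneg p.2]
  have hFi : Integrable F (volume.prod volume) := hFc.integrable_of_hasCompactSupport hFs
  have e1 : ∫ y : ℝ, ∫ x : ℝ, Φ (r - y ^ 2) (r - y ^ 2 - x ^ 2) = ∫ p : ℝ × ℝ, F p := by
    have h := integral_prod_symm F hFi
    rw [Measure.volume_eq_prod]
    rw [h]
  rw [e1, ← integral_comp_polarCoord_symm F]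
  -- the function in polar coordinates
  set G : ℝ × ℝ → ℝ := fun p => p.1 * Φ (r - p.1 ^ 2 * Real.sin p.2 ^ 2) (r - p.1 ^ 2) with hG
  have hGc : Continuous G := by
    have h : Continuous (fun p : ℝ × ℝ =>
        ((r - p.1 ^ 2 * Real.sin p.2 ^ 2, r - p.1 ^ 2) : ℝ × ℝ)) := by
      fun_prop
    exact continuous_fst.mul (hΦ.comp h)
  have hG0 : ∀ p : ℝ × ℝ, R ≤ p.1 → G p = 0 := by
    intro p hp
    have : r - p.1 ^ 2 ≤ r0 := by nlinarith
    simp only [hG]
    rw [h0 _ _ this, mul_zero]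
  have e2 : (∫ p in polarCoord.target, p.1 • F (polarCoord.symm p)) =
      ∫ p in Ioi (0:ℝ) ×ˢ Ioo (-π) π, G p := by
    have ht : polarCoord.target = Ioi (0:ℝ) ×ˢ Ioo (-π) π := rfl
    rw [ht]
    congr 1
    funext p
    rw [polarCoord_symm_apply]
    simp only [hF, hG, smul_eq_mul]
    have h3 := Real.sin_sq_add_cos_sq p.2
    congr 2
    · ring
    · nlinarith [h3]
  rw [e2, Measure.volume_eq_prod]
  have hGi : IntegrableOn G (Ioi (0:ℝ) ×ˢ Ioo (-π) π) (volume.prod volume) := by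
    have h1 : IntegrableOn G (Icc 0 R ×ˢ Icc (-π) π) (volume.prod volume) :=
      hGc.continuousOn.integrableOn_compact (isCompact_Icc.prod isCompact_Icc)
    apply h1.of_forall_sdiff_eq_zero (measurableSet_Ioi.prod measurableSet_Ioo)
    rintro p ⟨hp1, hp2⟩
    apply hG0
    by_contra hlt
    push Not at hlt
    apply hp2
    rw [mem_prod, mem_Ioi, mem_Ioo] at hp1
    rw [mem_prod, mem_Icc, mem_Icc]
    exact ⟨⟨hp1.1.le, hlt.le⟩, hp1.2.1.le, hp1.2.2.le⟩
  rw [setIntegral_prod G hGi]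
  -- the inner integral
  set K : ℝ → ℝ := fun q => ∫ θ in (-π)..π, Φ (r - (r - q) * Real.sin θ ^ 2) q with hK
  have hKc : Continuous K := by
    apply intervalIntegral.continuous_parametric_intervalIntegral_of_continuous'
    have h : Continuous (fun p : ℝ × ℝ =>
        ((r - (r - p.1) * Real.sin p.2 ^ 2, p.1) : ℝ × ℝ)) := by
      fun_prop
    exact hΦ.comp h
  have hinner : ∀ ρ : ℝ, ∫ θ in Ioo (-π) π, G (ρ, θ) = ρ * K (r - ρ ^ 2) := by
    intro ρ
    rw [← integral_Ioc_eq_integral_Ioo,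
      ← intervalIntegral.integral_of_le (by linarith [Real.pi_pos])]
    simp only [hG, hK]
    rw [intervalIntegral.integral_const_mul]
    congr 2
    funext θ
    congr 2
    ring
  simp only [hinner]
  have e3 : ∫ ρ in Ioi (0:ℝ), ρ * K (r - ρ ^ 2) = ∫ ρ in (0:ℝ)..R, ρ * K (r - ρ ^ 2) := by
    rw [intervalIntegral.integral_of_le hR0]
    apply setIntegral_eq_of_subset_of_forall_sdiff_eq_zero measurableSet_Ioi Ioc_subset_Ioi_self
    rintro ρ ⟨h1, h2⟩
    have h3 : R ≤ ρ := by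
      by_contra hlt
      push Not at hlt
      exact h2 ⟨h1, hlt.le⟩
    have h4 : r - ρ ^ 2 ≤ r0 := by nlinarith
    have h5 : K (r - ρ ^ 2) = 0 := by
      simp only [hK]
      rw [intervalIntegral.integral_congr (g := fun _ => (0:ℝ)) (fun θ _ => h0 _ _ h4)]
      simp
    rw [h5, mul_zero]
  rw [e3]
  have hsub := intervalIntegral.integral_comp_mul_deriv (a := 0) (b := R)
    (f := fun ρ : ℝ => r - ρ ^ 2) (f' := fun ρ : ℝ => -(2 * ρ)) (g := K)
    (fun ρ _ => by
      have := ((hasDerivAt_pow 2 ρ).const_sub r)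
      simpa using this)
    (by fun_prop) hKc
  have h6 : (∫ ρ in (0:ℝ)..R, (K ∘ fun ρ : ℝ => r - ρ ^ 2) ρ * -(2 * ρ)) =
      -2 * ∫ ρ in (0:ℝ)..R, ρ * K (r - ρ ^ 2) := by
    rw [← intervalIntegral.integral_const_mul]
    congr 1
    funext ρ
    simp only [Function.comp]
    ring
  have h7 : r - R ^ 2 = r0 := by rw [hR2]; ring
  simp only [h7] at hsub
  rw [h6] at hsub
  have h8 : r - (0:ℝ) ^ 2 = r := by ring
  simp only [h8] at hsub
  rw [intervalIntegral.integral_symm r0 r] at hsub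
  rw [intervalIntegral.integral_const_mul]
  change _ = (1 / 2) * ∫ q in r0..r, K q
  linarith

end Pool.Agent.H138R3.MO
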